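import Pool.Agent.Lib.MP_d90615_co.Mg.G033

/-!
# Edges with a common end are negatively correlated in the uniform forest of every graph

Proof: for a set `S` of edges put `H(A) = ∑_F det (1 + J_F A)`, summed over the forests
`F ⊆ S`, where `J_F` is the 0-1 matrix of the connectivity relation of `F`.  By induction on the
edges `H(A) ≠ 0` whenever `A` has positive definite imaginary part (`H_ne_zero`).  Hence
`H(A) H(A + vvᵀ + wwᵀ) ≤ H(A + vvᵀ) H(A + wwᵀ)` for real symmetric `A` (`rayleigh`).  For edges
`e = ca`, `f = cb` take `A = y e_c e_cᵀ`, `v = e_a`, `w = e_b` and compare the leading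
coefficients in `y`.
-/

namespace Pool.Agent.Results.MP_d90615_co.AdjacentPairs

open Finset Pool.Agent.Lib.MP_d90615_co
open scoped Classical

/-- The spanning forests of the finite multigraph with edge set `E`, vertex set `V` and end map
`ends`: the sets of edges that contain no cycle. -/
noncomputable def forests {V E : Type*} [Fintype E] (ends : E → Sym2 V) : Finset (Finset E) :=
  univ.filter fun F => ¬ HasCycle ends F

/-- Probability of the event `p` for a uniformly random spanning forest. -/
noncomputable def prob {V E : Type*} [Fintype E] (ends : E → Sym2 V) (p : Finset E → Prop) : ℝ :=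
  (((forests ends).filter p).card : ℝ) / ((forests ends).card : ℝ)

lemma card_eq {V E : Type*} [Fintype E] (ends : E → Sym2 V)
    (hloop : ∀ e, ¬ (ends e).IsDiag) (p : Finset E → Prop) :
    (((forests ends).filter p).card : ℝ) =
      ∑ F : Finset E, (if Forest ends F ∧ p F then 1 else 0 : ℝ) := by
  rw [forests, Finset.filter_filter, Finset.card_filter]
  push_cast
  refine Finset.sum_congr rfl fun F _ => ?_
  simp only [forest_iff hloop F]

/-- In every finite loopless multigraph two distinct edges with a common end are negatively
correlated in the uniform spanning forest. -/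
theorem result {V E : Type*} [Fintype V] [Fintype E] (ends : E → Sym2 V)
    (hloop : ∀ e, ¬ (ends e).IsDiag) (e f : E) (hef : e ≠ f) (c : V)
    (hce : c ∈ ends e) (hcf : c ∈ ends f) :
    prob ends (fun F => e ∈ F ∧ f ∈ F) ≤
      prob ends (fun F => e ∈ F) * prob ends (fun F => f ∈ F) := by
  obtain ⟨a, hca⟩ := Sym2.mem_iff_exists.mp hce
  obtain ⟨b, hcb⟩ := Sym2.mem_iff_exists.mp hcf
  set S : Finset E := (univ.erase e).erase f with hS
  have hfS : f ∉ S := Finset.notMem_erase _ _
  have hins : insert f S = univ.erase e := by
    rw [hS]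
    exact Finset.insert_erase (by simp [hef.symm])
  have heS : e ∉ insert f S := by
    rw [hins]
    exact Finset.notMem_erase _ _
  have huniv : insert e (insert f S) = univ := by
    rw [hins]
    exact Finset.insert_erase (Finset.mem_univ _)
  have hmain := adjacent ends hloop S heS hfS hca hcb
  rw [huniv, Finset.powerset_univ] at hmain
  have c0 : ((forests ends).card : ℝ) = ∑ F : Finset E, (if Forest ends F then 1 else 0 : ℝ) := by
    have := card_eq ends hloop (fun _ => True)
    simpa using this
  have hpos : (0 : ℝ) < ((forests ends).card : ℝ) := by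
    rw [c0]
    refine Finset.sum_pos' (fun F _ => by split_ifs <;> norm_num) ⟨∅, Finset.mem_univ _, ?_⟩
    have : Forest ends (∅ : Finset E) := by
      intro g hg
      simp at hg
    simp [this]
  have c1 : prob ends (fun F => e ∈ F) * ((forests ends).card : ℝ) =
      ∑ F : Finset E, (if Forest ends F ∧ e ∈ F then 1 else 0 : ℝ) := by
    rw [prob, div_mul_cancel₀ _ hpos.ne', card_eq ends hloop]
    exact Finset.sum_congr rfl fun F _ => by congr
  have c2 : prob ends (fun F => f ∈ F) * ((forests ends).card : ℝ) =
      ∑ F : Finset E, (if Forest ends F ∧ f ∈ F then 1 else 0 : ℝ) := by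
    rw [prob, div_mul_cancel₀ _ hpos.ne', card_eq ends hloop]
    exact Finset.sum_congr rfl fun F _ => by congr
  have c3 : prob ends (fun F => e ∈ F ∧ f ∈ F) * ((forests ends).card : ℝ) =
      ∑ F : Finset E, (if Forest ends F ∧ e ∈ F ∧ f ∈ F then 1 else 0 : ℝ) := by
    rw [prob, div_mul_cancel₀ _ hpos.ne', card_eq ends hloop]
    exact Finset.sum_congr rfl fun F _ => by congr
  rw [← c0, ← c1, ← c2, ← c3] at hmain
  set N : ℝ := ((forests ends).card : ℝ)
  set a : ℝ := prob ends (fun F => e ∈ F ∧ f ∈ F)
  set b : ℝ := prob ends (fun F => e ∈ F) with hb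
  set c : ℝ := prob ends (fun F => f ∈ F) with hc
  have h1 : a * (N * N) ≤ (b * c) * (N * N) := by nlinarith
  exact le_of_mul_le_mul_right h1 (mul_pos hpos hpos)

end Pool.Agent.Results.MP_d90615_co.AdjacentPairs
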