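import Pool.Agent.Lib.MP_d90615_co.DT

/-!
# Negative correlation of two edges on the event that they lie in different trees

For a uniformly random spanning forest `F` of a finite multigraph and any two edges `e ≠ f`,
`P(e, f ∈ F in different trees of F) + (17/20) P(e, f ∈ F in the same tree of F)
≤ P(e ∈ F) P(f ∈ F)`.  The constant `1` on the first term is the conjectured one.

Proof.  As for `AllPairsOneThirtyFirst`: `H(A) = ∑_F det (1 + J_F A)` satisfies the Rayleigh inequality
`H(A) H(A + vvᵀ + wwᵀ) ≤ H(A + vvᵀ) H(A + wwᵀ)` for real symmetric `A`.  It is used at the block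
matrices `A = x u₁u₁ᵀ + y u₂u₂ᵀ`, `u₁ = (1, 1, 0, 0)`, `u₂ = (0, 0, 1, 1)`, with
`(x, y) = (-4, -1/20), (-5/4, -1/5)` and the two swapped pairs.  Together with the three terminal
inequalities this gives the bound by an explicit cubic certificate (`certD`).
-/

namespace Pool.Agent.Results.MP_d90615_co.DifferentTrees

open Finset Pool.Agent.Lib.MP_d90615_co
open scoped Classical

/-- The spanning forests of the finite multigraph with edge set `E`, vertex set `V` and end map
`ends`: the sets of edges that contain no cycle. -/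
noncomputable def forests {V E : Type*} [Fintype E] (ends : E → Sym2 V) : Finset (Finset E) :=
  univ.filter fun F => ¬ HasCycle ends F

/-- Probability of the event `p` for a uniformly random spanning forest. -/
noncomputable def prob {V E : Type*} [Fintype E] (ends : E → Sym2 V) (p : Finset E → Prop) : ℝ :=
  (((forests ends).filter p).card : ℝ) / ((forests ends).card : ℝ)

/-- Some end of `e` is joined to some end of `f` by a walk with edges in `F`.  If `e, f ∈ F` this
says that `e` and `f` lie in the same connected component of `F`. -/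
def SameTree {V E : Type*} (ends : E → Sym2 V) (F : Finset E) (e f : E) : Prop :=
  ∃ x ∈ ends e, ∃ y ∈ ends f,
    Relation.ReflTransGen (fun a b => ∃ g ∈ F, ends g = s(a, b)) x y

lemma card_eq {V E : Type*} [Fintype E] (ends : E → Sym2 V)
    (hloop : ∀ e, ¬ (ends e).IsDiag) (p : Finset E → Prop) :
    (((forests ends).filter p).card : ℝ) =
      ∑ F : Finset E, (if Forest ends F ∧ p F then 1 else 0 : ℝ) := by
  rw [forests, Finset.filter_filter, Finset.card_filter]
  push_cast
  refine Finset.sum_congr rfl fun F _ => ?_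
  simp only [forest_iff hloop F]

/-- `P(e, f ∈ F, different trees) + (17/20) P(e, f ∈ F, same tree) ≤ P(e ∈ F) P(f ∈ F)`. -/
theorem result {V E : Type*} [Fintype V] [Fintype E] (ends : E → Sym2 V)
    (hloop : ∀ e, ¬ (ends e).IsDiag) (e f : E) (hef : e ≠ f) :
    prob ends (fun F => e ∈ F ∧ f ∈ F ∧ ¬ SameTree ends F e f) +
      17 / 20 * prob ends (fun F => e ∈ F ∧ f ∈ F ∧ SameTree ends F e f) ≤
    prob ends (fun F => e ∈ F) * prob ends (fun F => f ∈ F) := by
  -- the edge set as `insert e (insert f S)`
  set S : Finset E := (univ.erase e).erase f with hS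
  have hfS : f ∉ S := Finset.notMem_erase _ _
  have hins : insert f S = univ.erase e := by
    rw [hS]
    exact Finset.insert_erase (by simp [hef.symm])
  have heS : e ∉ insert f S := by
    rw [hins]
    exact Finset.notMem_erase _ _
  have huniv : insert e (insert f S) = univ := by
    rw [hins]
    exact Finset.insert_erase (Finset.mem_univ _)
  have hmain := different_trees ends hloop S heS hfS
  rw [huniv, Finset.powerset_univ] at hmain
  have c0 : ((forests ends).card : ℝ) = ∑ F : Finset E, (if Forest ends F then 1 else 0 : ℝ) := by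
    have := card_eq ends hloop (fun _ => True)
    simpa using this
  have hpos : (0 : ℝ) < ((forests ends).card : ℝ) := by
    rw [c0]
    refine Finset.sum_pos' (fun F _ => by split_ifs <;> norm_num) ⟨∅, Finset.mem_univ _, ?_⟩
    have : Forest ends (∅ : Finset E) := by
      intro g hg
      simp at hg
    simp [this]
  have c1 : prob ends (fun F => e ∈ F) * ((forests ends).card : ℝ) =
      ∑ F : Finset E, (if Forest ends F ∧ e ∈ F then 1 else 0 : ℝ) := by
    rw [prob, div_mul_cancel₀ _ hpos.ne', card_eq ends hloop]
    exact Finset.sum_congr rfl fun F _ => by congr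
  have c2 : prob ends (fun F => f ∈ F) * ((forests ends).card : ℝ) =
      ∑ F : Finset E, (if Forest ends F ∧ f ∈ F then 1 else 0 : ℝ) := by
    rw [prob, div_mul_cancel₀ _ hpos.ne', card_eq ends hloop]
    exact Finset.sum_congr rfl fun F _ => by congr
  have c3 : prob ends (fun F => e ∈ F ∧ f ∈ F ∧ ¬ SameTree ends F e f) *
        ((forests ends).card : ℝ) =
      ∑ F : Finset E,
        (if Forest ends F ∧ e ∈ F ∧ f ∈ F ∧ ¬ Joined ends F e f then 1 else 0 : ℝ) := by
    rw [prob, div_mul_cancel₀ _ hpos.ne', card_eq ends hloop]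
    refine Finset.sum_congr rfl fun F _ => ?_
    have hj : Joined ends F e f ↔ SameTree ends F e f := Iff.rfl
    by_cases h : Forest ends F ∧ e ∈ F ∧ f ∈ F ∧ ¬ Joined ends F e f
    · rw [if_pos h, if_pos (by rwa [hj] at h)]
    · rw [if_neg h, if_neg (by rwa [hj] at h)]
  have c4 : prob ends (fun F => e ∈ F ∧ f ∈ F ∧ SameTree ends F e f) *
        ((forests ends).card : ℝ) =
      ∑ F : Finset E,
        (if Forest ends F ∧ e ∈ F ∧ f ∈ F ∧ Joined ends F e f then 1 else 0 : ℝ) := by
    rw [prob, div_mul_cancel₀ _ hpos.ne', card_eq ends hloop]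
    refine Finset.sum_congr rfl fun F _ => ?_
    have hj : Joined ends F e f ↔ SameTree ends F e f := Iff.rfl
    by_cases h : Forest ends F ∧ e ∈ F ∧ f ∈ F ∧ Joined ends F e f
    · rw [if_pos h, if_pos (by rwa [hj] at h)]
    · rw [if_neg h, if_neg (by rwa [hj] at h)]
  rw [← c0, ← c1, ← c2, ← c3, ← c4] at hmain
  set N : ℝ := ((forests ends).card : ℝ)
  set t : ℝ := prob ends (fun F => e ∈ F ∧ f ∈ F ∧ ¬ SameTree ends F e f)
  set x : ℝ := prob ends (fun F => e ∈ F ∧ f ∈ F ∧ SameTree ends F e f)
  set b : ℝ := prob ends (fun F => e ∈ F)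
  set c : ℝ := prob ends (fun F => f ∈ F)
  have h1 : (t + 17 / 20 * x) * (N * N) ≤ (b * c) * (N * N) := by nlinarith
  exact le_of_mul_le_mul_right h1 (mul_pos hpos hpos)

end Pool.Agent.Results.MP_d90615_co.DifferentTrees
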