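import Mathlib
import Pool.Agent.Lib.MP_d90615_co.Cycle
import Pool.Agent.Lib.MP_d90615_co.TW.Pair
import Pool.Agent.Lib.MP_d90615_co.PW.Multi
import Pool.Agent.Lib.MP_d90615_co.MJ.Class

/-!
# Negative correlation in product joins, multipartite graphs and for edges with twin ends

A random spanning forest `F` of a finite multigraph is chosen with probability proportional to the
product of the weights of its edges.  Let `e = ab` and `f = cd`.  Then
`P(e, f ∈ F) ≤ P(e ∈ F) P(f ∈ F)` in each of the following cases.

* The ends `a, b, c, d` lie in four different blocks of a partition of the vertices into four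
  blocks, and the weight between `u` and `v` is `x_u x_v` whenever `u` and `v` lie in different
  blocks; the weights inside the blocks are arbitrary.
* `a = c`, or the stars of `a` and `c` are proportional outside `{a, b, c, d}`.
* Any `e ≠ f` in a graph with classes of vertices and weights `x_u x_v M_ij`, if `M_ij = 1` for
  `i ≠ j` (complete multipartite graphs, with product weights), or if no two edges join four
  different classes.

Proof of the first case.  Let `T_± = exp (± ½ d²/dX²)`.  A block `k` with total mass `x(R_k)`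
enters the partition function only through the polynomial
`∑_F w^F ∏_T (1 + l x_T)` (product over the components `T` of the forest `F` of the block), which
is real rooted, and the end `a_k` only through a polynomial that interlaces it.  The partition
functions of the whole graph are values of `T_- (∏_k T_+ (p_k (X - x(R_k))))`, which has no zeros
in the upper half plane and is log-submodular by a Heilmann-Lieb argument, and the normalising
sum satisfies a linear differential equation that bounds it by such values.
-/

namespace Pool.Agent.Results.MP_d90615_co.ProductJoins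

open Finset Pool.Agent.Lib.MP_d90615_co
open scoped Classical

/-- The spanning forests of the finite multigraph with edge set `E`, vertex set `V` and end map
`ends`: the sets of edges that contain no cycle. -/
noncomputable def forests {V E : Type*} [Fintype E] (ends : E → Sym2 V) : Finset (Finset E) :=
  univ.filter fun F => ¬ HasCycle ends F

/-- Probability of the event `p` for a random spanning forest `F` chosen with probability
proportional to the product of the weights of its edges (`w = 1`: uniformly). -/
noncomputable def prob {V E : Type*} [Fintype E] (ends : E → Sym2 V) (w : E → ℝ)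
    (p : Finset E → Prop) : ℝ :=
  (∑ F ∈ (forests ends).filter p, ∏ g ∈ F, w g) / ∑ F ∈ forests ends, ∏ g ∈ F, w g

/-- The total weight of the edges with ends `u` and `v`. -/
noncomputable def weight {V E : Type*} [Fintype E] (ends : E → Sym2 V) (w : E → ℝ) (u v : V) : ℝ :=
  ∑ g ∈ univ.filter (fun g => ends g = s(u, v)), w g

/-- `a` and `c` have a common star: outside `b` and `d` the weights of their edges are
nonnegative multiples of one nonnegative function on the vertices. -/
def Twins {V E : Type*} [Fintype E] (ends : E → Sym2 V) (w : E → ℝ) (a b c d : V) : Prop :=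
  ∃ (p q : ℝ) (x : V → ℝ), 0 ≤ p ∧ 0 ≤ q ∧ (∀ v, 0 ≤ x v) ∧
    ∀ v, v ≠ a → v ≠ b → v ≠ c → v ≠ d →
      weight ends w a v = p * x v ∧ weight ends w c v = q * x v

/-- From the Rayleigh difference to the probabilities. -/
theorem prob_le {V E : Type*} [Fintype V] [Fintype E] (ends : E → Sym2 V)
    (hloop : ∀ g, ¬ (ends g).IsDiag) (w : E → ℝ) (hw : ∀ g, 0 ≤ w g) (e f : E) (hef : e ≠ f)
    (hR : w e ≠ 0 → w f ≠ 0 → ends e ≠ ends f →
      0 ≤ Pool.Agent.PW.Ray (Pool.Agent.PW.tot ends w) (ends e) (ends f)) :
    prob ends w (fun F => e ∈ F ∧ f ∈ F) ≤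
      prob ends w (fun F => e ∈ F) * prob ends w (fun F => f ∈ F) := by
  have hZ : ∑ F ∈ forests ends, ∏ g ∈ F, w g = Pool.Agent.PW.Z (Pool.Agent.PW.tot ends w) := by
    rw [← Pool.Agent.PW.FS_eq, Pool.Agent.PW.FS, forests]
    refine Finset.sum_congr ?_ fun _ _ => rfl
    ext F
    rw [mem_filter, mem_filter, forest_iff hloop]
  have hpos : 0 < ∑ F ∈ forests ends, ∏ g ∈ F, w g := by
    have h0 : (∅ : Finset E) ∈ forests ends := by
      rw [forests, mem_filter]
      refine ⟨mem_univ _, ?_⟩
      rintro ⟨n, v, c, _, _, h⟩
      exact absurd (h 0).1 (Finset.notMem_empty _)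
    refine lt_of_lt_of_le one_pos ?_
    have h1 := Finset.single_le_sum (f := fun F : Finset E => ∏ g ∈ F, w g)
      (fun F _ => Finset.prod_nonneg fun g _ => hw g) h0
    simpa using h1
  have hm : ∀ g : E, prob ends w (fun F => g ∈ F) =
      w g * Pool.Agent.PW.N (Pool.Agent.PW.tot ends w) (ends g) /
        ∑ F ∈ forests ends, ∏ g ∈ F, w g := by
    intro g
    rw [← Pool.Agent.PW.sum_mem, prob]
    congr 1
    refine Finset.sum_congr ?_ fun _ _ => rfl
    ext F
    simp only [forests, mem_filter, mem_univ, true_and, forest_iff hloop]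
  have hmm : prob ends w (fun F => e ∈ F ∧ f ∈ F) =
      (if ends e = ends f then 0
      else w e * (w f * Pool.Agent.PW.N2 (Pool.Agent.PW.tot ends w) (ends e) (ends f))) /
        ∑ F ∈ forests ends, ∏ g ∈ F, w g := by
    rw [← Pool.Agent.PW.sum_mem_mem ends w hef, prob]
    congr 1
    refine Finset.sum_congr ?_ fun _ _ => rfl
    ext F
    simp only [forests, mem_filter, mem_univ, true_and, forest_iff hloop]
  rw [hm, hm, hmm, div_mul_div_comm, div_le_div_iff₀ hpos (mul_pos hpos hpos), hZ]
  set W := Pool.Agent.PW.tot ends w with hW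
  rw [hZ] at hpos
  have hWnn : ∀ g, 0 ≤ W g := fun g => Finset.sum_nonneg fun _ _ => hw _
  have hN : ∀ g, 0 ≤ Pool.Agent.PW.N W g := fun g =>
    Finset.sum_nonneg fun F _ => Finset.prod_nonneg fun _ _ => hWnn _
  have hnn : 0 ≤ w e * Pool.Agent.PW.N W (ends e) * (w f * Pool.Agent.PW.N W (ends f)) := by
    have := hw e
    have := hw f
    have := hN (ends e)
    have := hN (ends f)
    positivity
  split_ifs with h
  · rw [zero_mul]
    positivity
  · by_cases he : w e = 0
    · simp [he]
    by_cases hf : w f = 0
    · simp [hf]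
    have hR' := hR he hf h
    unfold Pool.Agent.PW.Ray at hR'
    have h3 : 0 ≤ w e * w f * Pool.Agent.PW.Z W := by
      have := hw e
      have := hw f
      positivity
    nlinarith [mul_nonneg h3 hR']

/-- The Rayleigh difference for two edges with twin ends. -/
theorem ray_of_twins {V E : Type*} [Fintype V] [Fintype E] (ends : E → Sym2 V)
    (hloop : ∀ g, ¬ (ends g).IsDiag) (w : E → ℝ) (hw : ∀ g, 0 ≤ w g) {e f : E}
    (hne : ends e ≠ ends f) {a b c d : V} (he : ends e = s(a, b)) (hf : ends f = s(c, d))
    (h : a = c ∨ Twins ends w a b c d) :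
    0 ≤ Pool.Agent.PW.Ray (Pool.Agent.PW.tot ends w) (ends e) (ends f) := by
  have hWnn : ∀ g, 0 ≤ Pool.Agent.PW.tot ends w g := fun g => Finset.sum_nonneg fun _ _ => hw _
  have hab : a ≠ b := by
    rintro rfl
    apply hloop e
    rw [he]
    simp
  have hcd : c ≠ d := by
    rintro rfl
    apply hloop f
    rw [hf]
    simp
  rw [he, hf] at hne
  rw [he, hf]
  by_cases hac : a = c
  · subst hac
    refine ray_adj _ hWnn hab hcd ?_
    rintro rfl
    exact hne rfl
  by_cases had : a = d
  · subst had
    rw [Sym2.eq_swap (a := c)] at hne ⊢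
    refine ray_adj _ hWnn hab (Ne.symm hcd) ?_
    rintro rfl
    exact hne rfl
  by_cases hbc : b = c
  · subst hbc
    rw [Sym2.eq_swap (a := a)] at hne ⊢
    refine ray_adj _ hWnn (Ne.symm hab) hcd ?_
    rintro rfl
    exact hne rfl
  by_cases hbd : b = d
  · subst hbd
    rw [Sym2.eq_swap (a := a), Sym2.eq_swap (a := c)] at hne ⊢
    refine ray_adj _ hWnn (Ne.symm hab) (Ne.symm hcd) hac
  obtain ⟨p, q, x, hp, hq, hx, hv⟩ := h.resolve_left hac
  exact ray_twin _ hWnn hab hac had hbc hbd hcd hp hq x hx
    (fun v h1 h2 h3 h4 => by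
      rw [← (hv v h1 h2 h3 h4).1]
      rfl)
    (fun v h1 h2 h3 h4 => by
      rw [← (hv v h1 h2 h3 h4).2]
      rfl)

/-- **Negative correlation** for edges with a common end or with twin ends, for edges that join
the four blocks of a product join, and for any two edges of a graph with classes of vertices as
below, in particular of a complete multipartite graph. -/
theorem result {V E K : Type*} [Fintype V] [Fintype E] (ends : E → Sym2 V)
    (hloop : ∀ g, ¬ (ends g).IsDiag) (w : E → ℝ) (hw : ∀ g, 0 ≤ w g) :
    (∀ (e f : E), e ≠ f → ∀ (a b c d : V), ends e = s(a, b) → ends f = s(c, d) →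
      (a = c ∨ Twins ends w a b c d) →
      prob ends w (fun F => e ∈ F ∧ f ∈ F) ≤
        prob ends w (fun F => e ∈ F) * prob ends w (fun F => f ∈ F)) ∧
    (∀ (e f : E) (a b c d : V), ends e = s(a, b) → ends f = s(c, d) →
      ∀ (r : V → Fin 4) (x : V → ℝ), r a = 0 → r b = 1 → r c = 2 → r d = 3 → (∀ v, 0 ≤ x v) →
      (∀ u v, r u ≠ r v → weight ends w u v = x u * x v) →
      prob ends w (fun F => e ∈ F ∧ f ∈ F) ≤
        prob ends w (fun F => e ∈ F) * prob ends w (fun F => f ∈ F)) ∧
    (∀ (k : V → K) (x : V → ℝ) (M : K → K → ℝ), (∀ v, 0 ≤ x v) → (∀ i j, 0 ≤ M i j) →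
      ((∀ i j, i ≠ j → M i j = 1) ∨
        ∀ i j i' j', M i j ≠ 0 → M i' j' ≠ 0 →
          i = j ∨ i' = j' ∨ i = i' ∨ i = j' ∨ j = i' ∨ j = j') →
      (∀ u v, u ≠ v → weight ends w u v = x u * x v * M (k u) (k v)) →
      ∀ (e f : E), e ≠ f →
        prob ends w (fun F => e ∈ F ∧ f ∈ F) ≤
          prob ends w (fun F => e ∈ F) * prob ends w (fun F => f ∈ F)) := by
  refine ⟨?_, ?_, ?_⟩
  · intro e f hef a b c d he hf h
    exact prob_le ends hloop w hw e f hef fun _ _ hne =>
      ray_of_twins ends hloop w hw hne he hf h
  · intro e f a b c d he hf r x ha hb hc hd hx hW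
    have hac : a ≠ c := by
      rintro rfl
      rw [ha] at hc
      exact absurd hc (by decide)
    have had : a ≠ d := by
      rintro rfl
      rw [ha] at hd
      exact absurd hd (by decide)
    have hef : e ≠ f := by
      rintro rfl
      rw [he, Sym2.eq_iff] at hf
      rcases hf with h | h
      · exact hac h.1
      · exact had h.1
    refine prob_le ends hloop w hw e f hef fun _ _ _ => ?_
    rw [he, hf]
    exact Pool.Agent.MJ.ray_join' (Pool.Agent.PW.tot ends w)
      (fun g => Finset.sum_nonneg fun _ _ => hw _) x hx r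
      (fun u v huv => hW u v huv) ha hb hc hd
  · intro k x M hx hM hint hW e f hef
    refine prob_le ends hloop w hw e f hef fun hwe hwf hne => ?_
    -- the classes of the ends
    have hMne : ∀ (g : E) (u v : V), w g ≠ 0 → ends g = s(u, v) → u ≠ v ∧ M (k u) (k v) ≠ 0 := by
      intro g u v hg huv
      have h1 : u ≠ v := by
        rintro rfl
        apply hloop g
        rw [huv]
        simp
      refine ⟨h1, fun h2 => ?_⟩
      have h3 := hW u v h1
      rw [h2, mul_zero] at h3
      have h4 : w g ≤ weight ends w u v :=
        Finset.single_le_sum (f := w) (fun g _ => hw g) (by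
          rw [mem_filter]
          exact ⟨mem_univ _, huv⟩)
      have h5 := hw g
      exact hg (le_antisymm (by linarith) h5)
    obtain ⟨a, b, hab⟩ : ∃ a b, ends e = s(a, b) := by
      induction h : ends e using Sym2.ind with
      | _ u v => exact ⟨u, v, rfl⟩
    obtain ⟨c, d, hcd⟩ : ∃ c d, ends f = s(c, d) := by
      induction h : ends f using Sym2.ind with
      | _ u v => exact ⟨u, v, rfl⟩
    obtain ⟨hab', hM1⟩ := hMne e a b hwe hab
    obtain ⟨hcd', hM2⟩ := hMne f c d hwf hcd
    have hWnn : ∀ g, 0 ≤ Pool.Agent.PW.tot ends w g := fun g =>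
      Finset.sum_nonneg fun _ _ => hw _
    by_cases hac : a = c
    · exact ray_of_twins ends hloop w hw hne hab hcd (Or.inl hac)
    by_cases had : a = d
    · exact ray_of_twins ends hloop w hw hne hab (by rw [hcd, Sym2.eq_swap]) (Or.inl had)
    by_cases hbc : b = c
    · exact ray_of_twins ends hloop w hw hne (by rw [hab, Sym2.eq_swap]) hcd (Or.inl hbc)
    by_cases hbd : b = d
    · exact ray_of_twins ends hloop w hw hne (by rw [hab, Sym2.eq_swap])
        (by rw [hcd, Sym2.eq_swap]) (Or.inl hbd)
    rw [hab, hcd]
    refine Pool.Agent.MJ.ray_class_of k M hM ?_ _ (Pool.Agent.PW.tot ends w) x hWnn hx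
      (fun u v huv => hW u v huv) rfl a b c d hab' hac had hbc hbd hcd' hM1 hM2
    intro W x hW0 hx hWx a b c d h1 h2 h3 h4 h5 h6 hMab hMcd
    rcases hint with hint | hint
    · refine Pool.Agent.MJ.ray_multipartite W hW0 x hx k (fun u v huv => ?_) h1 h3 h4 h5 h6 h2
      rw [hWx u v (fun h => huv (congrArg k h)), hint _ _ huv, mul_one]
    · rcases hint _ _ _ _ hMab hMcd with h | h | h | h | h | h
      · exact absurd h h1
      · exact absurd h h2
      · exact absurd h h3
      · exact absurd h h4
      · exact absurd h h5
      · exact absurd h h6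

end Pool.Agent.Results.MP_d90615_co.ProductJoins
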