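import Mathlib
import Pool.Agent.Lib.MP_d90615_co.Cycle
import Pool.Agent.Lib.MP_d90615_co.PW.NC
import Pool.Agent.Lib.MP_d90615_co.PW.Multi

/-!
# Negative correlation for random forests of complete graphs with product weights

`P(F)` proportional to `∏ g ∈ F, w g`, where the total weight of the edges between two vertices
`u ≠ v` is `x u * x v` (except possibly between the ends of `e` and between the ends of `f`).
Then `P(e, f ∈ F) ≤ P(e ∈ F) P(f ∈ F)`.

Proof: contraction stays in the class of product weights and keeps the total mass `X = ∑ x`;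
the partition function is expressed with the Hermite polynomials of `X` and the elementary
symmetric functions of `x`, and the inequality follows from three inequalities for these
functions, each proved by induction on the number of vertices.
-/

namespace Pool.Agent.Results.MP_d90615_co.ProductWeights

open Finset Pool.Agent.Lib.MP_d90615_co
open scoped Classical

/-- The spanning forests of the finite multigraph with edge set `E`, vertex set `V` and end map
`ends`: the sets of edges that contain no cycle. -/
noncomputable def forests {V E : Type*} [Fintype E] (ends : E → Sym2 V) : Finset (Finset E) :=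
  univ.filter fun F => ¬ HasCycle ends F

/-- Probability of the event `p` for a random spanning forest `F` chosen with probability
proportional to the product of the weights of its edges (`w = 1`: uniformly). -/
noncomputable def prob {V E : Type*} [Fintype E] (ends : E → Sym2 V) (w : E → ℝ)
    (p : Finset E → Prop) : ℝ :=
  (∑ F ∈ (forests ends).filter p, ∏ g ∈ F, w g) / ∑ F ∈ forests ends, ∏ g ∈ F, w g

/-- **Negative correlation for product weights.** -/
theorem result {V E : Type*} [Fintype V] [Fintype E] (ends : E → Sym2 V)
    (hloop : ∀ g, ¬ (ends g).IsDiag) (w : E → ℝ) (hw : ∀ g, 0 ≤ w g)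
    (x : V → ℝ) (hx : ∀ v, 0 ≤ x v) (e f : E) (hef : e ≠ f)
    (hprod : ∀ u v : V, u ≠ v → s(u, v) ≠ ends e → s(u, v) ≠ ends f →
      ∑ g ∈ univ.filter (fun g => ends g = s(u, v)), w g = x u * x v) :
    prob ends w (fun F => e ∈ F ∧ f ∈ F) ≤
      prob ends w (fun F => e ∈ F) * prob ends w (fun F => f ∈ F) := by
  have hZ : ∑ F ∈ forests ends, ∏ g ∈ F, w g = Pool.Agent.PW.Z (Pool.Agent.PW.tot ends w) := by
    rw [← Pool.Agent.PW.FS_eq, Pool.Agent.PW.FS, forests]
    refine Finset.sum_congr ?_ fun _ _ => rfl
    ext F
    rw [mem_filter, mem_filter, forest_iff hloop]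
  have hpos : 0 < ∑ F ∈ forests ends, ∏ g ∈ F, w g := by
    have h0 : (∅ : Finset E) ∈ forests ends := by
      rw [forests, mem_filter]
      refine ⟨mem_univ _, ?_⟩
      rintro ⟨n, v, c, _, _, h⟩
      exact absurd (h 0).1 (Finset.notMem_empty _)
    refine lt_of_lt_of_le one_pos ?_
    have h1 := Finset.single_le_sum (f := fun F : Finset E => ∏ g ∈ F, w g)
      (fun F _ => Finset.prod_nonneg fun g _ => hw g) h0
    simpa using h1
  have hm : ∀ g : E, prob ends w (fun F => g ∈ F) =
      w g * Pool.Agent.PW.N (Pool.Agent.PW.tot ends w) (ends g) /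
        ∑ F ∈ forests ends, ∏ g ∈ F, w g := by
    intro g
    rw [← Pool.Agent.PW.sum_mem, prob]
    congr 1
    refine Finset.sum_congr ?_ fun _ _ => rfl
    ext F
    simp only [forests, mem_filter, mem_univ, true_and, forest_iff hloop]
  have hmm : prob ends w (fun F => e ∈ F ∧ f ∈ F) =
      (if ends e = ends f then 0
      else w e * (w f * Pool.Agent.PW.N2 (Pool.Agent.PW.tot ends w) (ends e) (ends f))) /
        ∑ F ∈ forests ends, ∏ g ∈ F, w g := by
    rw [← Pool.Agent.PW.sum_mem_mem ends w hef, prob]
    congr 1
    refine Finset.sum_congr ?_ fun _ _ => rfl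
    ext F
    simp only [forests, mem_filter, mem_univ, true_and, forest_iff hloop]
  rw [hm, hm, hmm, div_mul_div_comm, div_le_div_iff₀ hpos (mul_pos hpos hpos), hZ]
  set W := Pool.Agent.PW.tot ends w with hW
  rw [hZ] at hpos
  have hWnn : ∀ g, 0 ≤ W g := fun g => Finset.sum_nonneg fun _ _ => hw _
  have hN : ∀ g, 0 ≤ Pool.Agent.PW.N W g := fun g =>
    Finset.sum_nonneg fun F _ => Finset.prod_nonneg fun _ _ => hWnn _
  split_ifs with h
  · rw [zero_mul]
    have := hw e
    have := hw f
    have := hN (ends e)
    have := hN (ends f)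
    positivity
  · have hR : 0 ≤ Pool.Agent.PW.Ray W (ends e) (ends f) := by
      have h1 : Pool.Agent.PW.Ray W (ends e) (ends f) =
          Pool.Agent.PW.Ray (Pool.Agent.PW.pw x) (ends e) (ends f) := by
        refine Pool.Agent.PW.Ray_congr h fun g hg h1 h2 => ?_
        induction g using Sym2.ind with
        | _ u v =>
          rw [Sym2.mk_isDiag_iff] at hg
          rw [Pool.Agent.PW.pw_mk, ← hprod u v hg h1 h2, hW]
          unfold Pool.Agent.PW.tot
          rfl
      rw [h1]
      exact Pool.Agent.PW.ray_nonneg x hx (hloop e) (hloop f) h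
    unfold Pool.Agent.PW.Ray at hR
    have h3 : 0 ≤ w e * w f * Pool.Agent.PW.Z W := by
      have := hw e
      have := hw f
      positivity
    nlinarith [mul_nonneg h3 hR]

end Pool.Agent.Results.MP_d90615_co.ProductWeights
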