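import Pool.Agent.Lib.MP_d90615_h4.Tri

/-!
# Correlations in the uniform spanning forest, given that vertices are separated

`F` is a uniformly random spanning forest of a finite multigraph, `U` is a set of vertices.  For a
set `Q` of pairs let `D(U, Q)` be the event that no two vertices of `U` are joined in `F`, except
possibly the pairs in `Q`.

1. `a, b, c, d ∈ U` distinct, `D = D(U, {ab, cd})`: given `D`, the events `a ~ b` and `c ~ d` are
   negatively correlated, and if `e = ab`, `f = cd` are edges then `e ∈ F` and `f ∈ F` are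
   negatively correlated given `D`.
2. `P(a ~ b | D(U ∪ v, {ab})) ≤ P(a ~ b | D(U, {ab}))`.
3. If `e = ab` is an edge and `f` is an edge with an end `x ∈ U`, `x ≠ a, b`, then `e ∈ F` and
   `f ∈ F` are positively correlated given `D(U, {ab})`.
4. `a, b, c ∈ U` distinct: with `p_ij = P(i ~ j, D(U, {ij}))`,
   `P(a ~ b ~ c, D(U, {ab, bc, ac})) P(D(U, ∅)) ≥ p_ab p_bc + p_bc p_ac + p_ac p_ab`.

Proof.  (L) Adding an edge at a vertex of `U` increases the response matrix
`P(i ~ j, D(U, {ij})) / P(D(U, ∅))` of `U` in the Loewner order (as a graph Laplacian): this is the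
Rayleigh inequality for `H(A) = ∑_F det (1 + J_F A)` in the limit of large diagonal entries at `U`.
(2) follows from (L) by induction over the edges at `a`; (1), (3) and (4) follow from (2) and (L),
(1) and (4) by another induction over the edges at `a`.
-/

namespace Pool.Agent.Results.MP_d90615_co.SeparatedCorrelation

open Finset Pool.Agent.Lib.MP_d90615_co
open scoped Classical

/-- The spanning forests of the finite multigraph with edge set `E`, vertex set `V` and end map
`ends`: the sets of edges that contain no cycle. -/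
noncomputable def forests {V E : Type*} [Fintype E] (ends : E → Sym2 V) : Finset (Finset E) :=
  univ.filter fun F => ¬ HasCycle ends F

/-- Probability of the event `p` for a uniformly random spanning forest. -/
noncomputable def prob {V E : Type*} [Fintype E] (ends : E → Sym2 V) (p : Finset E → Prop) : ℝ :=
  (((forests ends).filter p).card : ℝ) / ((forests ends).card : ℝ)

/-- `x` and `y` are joined by a walk with edges in `F`. -/
def Joined {V E : Type*} (ends : E → Sym2 V) (F : Finset E) : V → V → Prop :=
  Relation.ReflTransGen (fun a b => ∃ g ∈ F, ends g = s(a, b))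

/-- No two distinct vertices of `U` are joined, except possibly the pairs in `Q`. -/
def Apart {V E : Type*} (ends : E → Sym2 V) (F : Finset E) (U : Finset V) (Q : Set (Sym2 V)) :
    Prop :=
  ∀ x ∈ U, ∀ y ∈ U, x ≠ y → Joined ends F x y → s(x, y) ∈ Q

open Pool.Agent.Lib.MP_d90615_h62.KT in
lemma prob_eq {V E : Type*} [Fintype E] (ends : E → Sym2 V)
    (hloop : ∀ e, ¬ (ends e).IsDiag) (p : Finset E → Prop) :
    prob ends p = cnt ends univ p / ((forests ends).card : ℝ) := by
  unfold prob
  congr 1
  rw [forests, Finset.filter_filter, Finset.card_filter]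
  unfold cnt ind
  rw [Finset.sum_filter, Finset.powerset_univ]
  push_cast
  refine Finset.sum_congr rfl fun F _ => ?_
  by_cases h1 : Forest ends F
  · have h2 : ¬ HasCycle ends F := (forest_iff hloop F).1 h1
    by_cases h3 : p F
    · rw [if_pos ⟨h2, h3⟩, if_pos h1, if_pos h3]
    · rw [if_neg (fun h => h3 h.2), if_pos h1, if_neg h3]
  · have h2 : ¬ ¬ HasCycle ends F := fun h => h1 ((forest_iff hloop F).2 h)
    rw [if_neg (fun h => h2 h.1), if_neg h1]

lemma le_of_cnt {A B C D N : ℝ} (hN : 0 ≤ N) (h : A * B ≤ C * D) :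
    A / N * (B / N) ≤ C / N * (D / N) := by
  rw [div_mul_div_comm, div_mul_div_comm]
  exact div_le_div_of_nonneg_right h (mul_nonneg hN hN)

/-- Correlations in the uniform spanning forest given that the vertices of `U` are separated,
except possibly some given pairs. -/
theorem result {V E : Type*} [Fintype V] [Fintype E] (ends : E → Sym2 V)
    (hloop : ∀ e, ¬ (ends e).IsDiag) (U : Finset V) :
    -- (1) negative correlation of two connections and of two edges
    (∀ a ∈ U, ∀ b ∈ U, ∀ c ∈ U, ∀ d ∈ U, a ≠ b → a ≠ c → a ≠ d → b ≠ c → b ≠ d → c ≠ d →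
      (prob ends (fun F => Joined ends F a b ∧ Joined ends F c d ∧
            Apart ends F U {s(a, b), s(c, d)}) *
          prob ends (fun F => Apart ends F U {s(a, b), s(c, d)}) ≤
        prob ends (fun F => Joined ends F a b ∧ Apart ends F U {s(a, b), s(c, d)}) *
          prob ends (fun F => Joined ends F c d ∧ Apart ends F U {s(a, b), s(c, d)})) ∧
      ∀ e f : E, ends e = s(a, b) → ends f = s(c, d) →
        prob ends (fun F => e ∈ F ∧ f ∈ F ∧ Apart ends F U {s(a, b), s(c, d)}) *
          prob ends (fun F => Apart ends F U {s(a, b), s(c, d)}) ≤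
        prob ends (fun F => e ∈ F ∧ Apart ends F U {s(a, b), s(c, d)}) *
          prob ends (fun F => f ∈ F ∧ Apart ends F U {s(a, b), s(c, d)})) ∧
    -- (2) separating a further vertex makes a connection less likely
    (∀ a ∈ U, ∀ b ∈ U, a ≠ b → ∀ v ∉ U,
      prob ends (fun F => Joined ends F a b ∧ Apart ends F (insert v U) {s(a, b)}) *
        prob ends (fun F => Apart ends F U {s(a, b)}) ≤
      prob ends (fun F => Joined ends F a b ∧ Apart ends F U {s(a, b)}) *
        prob ends (fun F => Apart ends F (insert v U) {s(a, b)})) ∧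
    -- (3) positive correlation of two edges
    (∀ a ∈ U, ∀ b ∈ U, ∀ x ∈ U, a ≠ b → x ≠ a → x ≠ b → ∀ e f : E, ends e = s(a, b) →
      x ∈ ends f →
      prob ends (fun F => e ∈ F ∧ Apart ends F U {s(a, b)}) *
        prob ends (fun F => f ∈ F ∧ Apart ends F U {s(a, b)}) ≤
      prob ends (fun F => e ∈ F ∧ f ∈ F ∧ Apart ends F U {s(a, b)}) *
        prob ends (fun F => Apart ends F U {s(a, b)})) ∧
    -- (4) three vertices
    (∀ a ∈ U, ∀ b ∈ U, ∀ c ∈ U, a ≠ b → b ≠ c → a ≠ c →
      prob ends (fun F => Joined ends F a b ∧ Apart ends F U {s(a, b)}) *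
          prob ends (fun F => Joined ends F b c ∧ Apart ends F U {s(b, c)}) +
        prob ends (fun F => Joined ends F b c ∧ Apart ends F U {s(b, c)}) *
          prob ends (fun F => Joined ends F a c ∧ Apart ends F U {s(a, c)}) +
        prob ends (fun F => Joined ends F a c ∧ Apart ends F U {s(a, c)}) *
          prob ends (fun F => Joined ends F a b ∧ Apart ends F U {s(a, b)}) ≤
      prob ends (fun F => Joined ends F a b ∧ Joined ends F b c ∧
          Apart ends F U {s(a, b), s(b, c), s(a, c)}) *
        prob ends (fun F => Apart ends F U ∅)) := by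
  have hN : (0 : ℝ) ≤ ((forests ends).card : ℝ) := Nat.cast_nonneg _
  simp only [prob_eq ends hloop]
  refine ⟨?_, ?_, ?_, ?_⟩
  · intro a ha b hb c hc d hd hab hac had hbc hbd hcd
    refine ⟨le_of_cnt hN (Pool.Agent.Lib.MP_d90615_h4.conn_conn ha hb hc hd hab hac had hbc hbd
      hcd univ), fun e f he hf => le_of_cnt hN ?_⟩
    have hef : e ≠ f := by
      rintro rfl
      rw [he] at hf
      rcases Sym2.eq_iff.mp hf with ⟨h, _⟩ | ⟨h, _⟩
      · exact hac h
      · exact had h
    have h1 : insert f ((univ.erase e).erase f) = univ.erase e :=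
      Finset.insert_erase (by simp [hef.symm])
    have h2 : insert e (insert f ((univ.erase e).erase f)) = univ := by
      rw [h1]
      exact Finset.insert_erase (Finset.mem_univ _)
    have h := Pool.Agent.Lib.MP_d90615_h4.edge_edge ha hb hc hd hab hac had hbc hbd hcd
      (S := (univ.erase e).erase f) he hf (by rw [h1]; exact Finset.notMem_erase _ _)
      (Finset.notMem_erase _ _)
    rw [h2] at h
    exact h
  · intro a ha b hb hab v hv
    exact le_of_cnt hN (Pool.Agent.Lib.MP_d90615_h4.blocking univ hv ha hb hab)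
  · intro a ha b hb x hx hab hxa hxb e f he hxf
    obtain ⟨w, hf⟩ := Sym2.mem_iff_exists.1 hxf
    have hxw : x ≠ w := by
      rintro rfl
      exact hloop f (by rw [hf]; exact Sym2.mk_isDiag_iff.2 rfl)
    have hef : e ≠ f := by
      rintro rfl
      rw [he] at hxf
      rcases Sym2.mem_iff.1 hxf with h | h
      · exact hxa h
      · exact hxb h
    refine le_of_cnt hN ?_
    have h1 : insert f ((univ.erase e).erase f) = univ.erase e :=
      Finset.insert_erase (by simp [hef.symm])
    have h2 : insert e (insert f ((univ.erase e).erase f)) = univ := by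
      rw [h1]
      exact Finset.insert_erase (Finset.mem_univ _)
    have h := Pool.Agent.Lib.MP_d90615_h4.positive (S := (univ.erase e).erase f) he hf
      (by rw [h1]; exact Finset.notMem_erase _ _) (Finset.notMem_erase _ _) ha hb hx hab
      hxa.symm hxb.symm hxw
    rw [h2] at h
    exact h
  · intro a ha b hb c hc hab hbc hac
    have h := Pool.Agent.Lib.MP_d90615_h4.tri _ ends univ rfl U a b c ha hb hc hab hbc hac
    have h1 : ∀ i j : V, i ≠ j → Pool.Agent.Lib.MP_d90615_h4.XX ends univ U i j =
        Pool.Agent.Lib.MP_d90615_h62.KT.cnt ends univ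
          (fun F => Joined ends F i j ∧ Apart ends F U {s(i, j)}) := fun i j hij =>
      (Pool.Agent.Lib.MP_d90615_h4.c_conn_one univ hij).symm
    have h2 : Pool.Agent.Lib.MP_d90615_h4.ZZ ends univ U a b c =
        Pool.Agent.Lib.MP_d90615_h62.KT.cnt ends univ
          (fun F => Joined ends F a b ∧ Joined ends F b c ∧
            Apart ends F U {s(a, b), s(b, c), s(a, c)}) := by
      refine Pool.Agent.Lib.MP_d90615_h62.KT.cnt_congr fun F _ _ => ?_
      refine and_congr_right fun _ => and_congr_right fun _ => ?_
      refine forall₂_congr fun k _ => forall₂_congr fun l _ => forall₂_congr fun hkl _ => ?_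
      rw [Set.mem_insert_iff, Set.mem_insert_iff, Set.mem_singleton_iff, Sym2.eq_iff,
        Sym2.eq_iff, Sym2.eq_iff]
      constructor
      · rintro ⟨rfl | rfl | rfl, rfl | rfl | rfl⟩ <;> simp at hkl ⊢
      · rintro ((⟨rfl, rfl⟩ | ⟨rfl, rfl⟩) | (⟨rfl, rfl⟩ | ⟨rfl, rfl⟩) |
          (⟨rfl, rfl⟩ | ⟨rfl, rfl⟩)) <;> simp
    have h3 : Pool.Agent.Lib.MP_d90615_h4.TT ends univ U =
        Pool.Agent.Lib.MP_d90615_h62.KT.cnt ends univ (fun F => Apart ends F U ∅) :=
      Pool.Agent.Lib.MP_d90615_h62.KT.cnt_congr fun F _ _ =>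
        Pool.Agent.Lib.MP_d90615_h4.apart_empty.symm
    rw [h1 a b hab, h1 b c hbc, h1 a c hac, h2, h3] at h
    rw [div_mul_div_comm, div_mul_div_comm, div_mul_div_comm, div_mul_div_comm,
      ← add_div, ← add_div]
    exact div_le_div_of_nonneg_right h (mul_nonneg hN hN)

end Pool.Agent.Results.MP_d90615_co.SeparatedCorrelation
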