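import Mathlib
import Pool.Agent.Lib.MP_d90615_co.Cycle
import Pool.Agent.Lib.MP_d90615_co.SR.Deg

/-!
# The edges of a random forest at a vertex are strongly Rayleigh

Proof: `∑_F w^F det (1 + J_F A)` (sum over the forests, `J_F` the 0-1 matrix of connectivity) has
no zero among the matrices `A` with positive definite imaginary part, for all weights `w ≥ 0`;
for a diagonal matrix `A` the determinant is the product over the trees `T` of `F` of
`1 + ∑ i ∈ T, A i i`, which is the generating function of the ways to join trees of `F` to a new
vertex; the boundary case (vertices that are not neighbours) is Hurwitz's theorem.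
-/

namespace Pool.Agent.Results.MP_d90615_co.StarRayleigh

open Finset Pool.Agent.Lib.MP_d90615_co
open scoped Classical

/-- The spanning forests of the finite multigraph with edge set `E`, vertex set `V` and end map
`ends`: the sets of edges that contain no cycle. -/
noncomputable def forests {V E : Type*} [Fintype E] (ends : E → Sym2 V) : Finset (Finset E) :=
  univ.filter fun F => ¬ HasCycle ends F

/-- Let `h` be a vertex of a finite loopless multigraph with edge weights `w ≥ 0`.
(1) The generating function of the edges at `h`, in variables `z g` for the edges `g` at `h`, has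
no zero with all `Im (z g) > 0`.
(2) It satisfies the Rayleigh inequalities at all real values of the variables.
(3) If `F` is chosen with probability proportional to the product of its weights then the degree
of `h` in `F` has the law of a sum of independent Bernoulli variables. -/
theorem result {V E : Type*} [Fintype V] [Fintype E] (ends : E → Sym2 V)
    (hloop : ∀ g, ¬ (ends g).IsDiag) (w : E → ℝ) (hw : ∀ g, 0 ≤ w g) (h : V) :
    (∀ z : E → ℂ, (∀ g, h ∈ ends g → 0 < (z g).im) →
      ∑ F ∈ forests ends, ∏ g ∈ F, (if h ∈ ends g then z g else (w g : ℂ)) ≠ 0) ∧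
    (∀ (x : E → ℝ) (e f : E), e ≠ f → h ∈ ends e → h ∈ ends f →
      (∑ F ∈ forests ends, ∏ g ∈ F, (if h ∈ ends g then x g else w g)) *
        (∑ F ∈ (forests ends).filter (fun F => e ∈ F ∧ f ∈ F),
          ∏ g ∈ (F.erase e).erase f, (if h ∈ ends g then x g else w g)) ≤
      (∑ F ∈ (forests ends).filter (fun F => e ∈ F),
          ∏ g ∈ F.erase e, (if h ∈ ends g then x g else w g)) *
        (∑ F ∈ (forests ends).filter (fun F => f ∈ F),
          ∏ g ∈ F.erase f, (if h ∈ ends g then x g else w g))) ∧
    (∃ (n : ℕ) (p : Fin n → ℝ), (∀ i, 0 < p i ∧ p i ≤ 1) ∧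
      ∀ t : ℝ, ∑ F ∈ forests ends, (∏ g ∈ F, w g) * t ^ (F.filter (fun g => h ∈ ends g)).card =
        (∑ F ∈ forests ends, ∏ g ∈ F, w g) * ∏ i, (1 - p i + p i * t)) := by
  have hF : forests ends = (univ : Finset (Finset E)).filter (fun F => Forest ends F) := by
    ext F
    simp only [forests, mem_filter, mem_univ, true_and, forest_iff hloop]
  refine ⟨?_, ?_, ?_⟩
  · intro z hz
    rw [hF]
    exact gs_ne_zero ends hloop w hw h z fun g hg => Or.inl (hz g hg)
  · intro x e f hef he hf
    have h1 := star_rayleigh ends hloop w hw h hef he hf x
    set u : E → ℝ := fun g => if h ∈ ends g then x g else w g with hu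
    have hue : u e = x e := if_pos he
    have huf : u f = x f := if_pos hf
    set B00 := BR ends w h e f (fun F => e ∉ F ∧ f ∉ F) x with hB00
    set B10 := BR ends w h e f (fun F => e ∈ F ∧ f ∉ F) x with hB10
    set B01 := BR ends w h e f (fun F => e ∉ F ∧ f ∈ F) x with hB01
    set B11 := BR ends w h e f (fun F => e ∈ F ∧ f ∈ F) x with hB11
    have e11 : ∑ F ∈ (forests ends).filter (fun F => e ∈ F ∧ f ∈ F),
          ∏ g ∈ (F.erase e).erase f, u g = B11 := by
      rw [hF, hB11, BR, Finset.filter_filter]
      refine Finset.sum_congr ?_ fun _ _ => rfl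
      ext F
      simp only [mem_filter]
    have e1 : ∑ F ∈ (forests ends).filter (fun F => e ∈ F), ∏ g ∈ F.erase e, u g =
        B10 + x f * B11 := by
      rw [hF, hB11, hB10, BR, BR, Finset.filter_filter, Finset.mul_sum, Finset.sum_filter,
        Finset.sum_filter, Finset.sum_filter, ← Finset.sum_add_distrib]
      refine Finset.sum_congr rfl fun F _ => ?_
      by_cases h2 : Forest ends F <;> by_cases h3 : e ∈ F <;> by_cases h4 : f ∈ F
      · have h5 : f ∈ F.erase e := Finset.mem_erase.mpr ⟨hef.symm, h4⟩
        simp only [h2, h3, h4, and_self, if_true, not_true, and_false, if_false, zero_add]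
        rw [← Finset.mul_prod_erase (F.erase e) u h5, huf]
      · have h5 : f ∉ F.erase e := fun h6 => h4 (Finset.mem_of_mem_erase h6)
        simp only [h2, h3, h4, and_self, if_true, not_false_iff, and_false, if_false, add_zero]
        rw [Finset.erase_eq_of_notMem h5]
      all_goals simp [h2, h3, h4]
    have e2 : ∑ F ∈ (forests ends).filter (fun F => f ∈ F), ∏ g ∈ F.erase f, u g =
        B01 + x e * B11 := by
      rw [hF, hB11, hB01, BR, BR, Finset.filter_filter, Finset.mul_sum, Finset.sum_filter,
        Finset.sum_filter, Finset.sum_filter, ← Finset.sum_add_distrib]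
      refine Finset.sum_congr rfl fun F _ => ?_
      by_cases h2 : Forest ends F <;> by_cases h3 : e ∈ F <;> by_cases h4 : f ∈ F
      · have h5 : e ∈ F.erase f := Finset.mem_erase.mpr ⟨hef, h3⟩
        simp only [h2, h3, h4, and_self, if_true, not_true, false_and, and_false, if_false,
          zero_add]
        rw [← Finset.mul_prod_erase (F.erase f) u h5, hue, Finset.erase_right_comm]
      · simp [h2, h3, h4]
      · simp only [h2, h3, h4, and_self, if_true, not_false_iff, false_and, and_false, if_false,
          add_zero]
        rw [Finset.erase_eq_of_notMem h3]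
      all_goals simp [h2, h3, h4]
    have e0 : ∑ F ∈ forests ends, ∏ g ∈ F, u g =
        B00 + x e * B10 + x f * B01 + x e * x f * B11 := by
      rw [hF, hB11, hB01, hB10, hB00, BR, BR, BR, BR, Finset.mul_sum, Finset.mul_sum,
        Finset.mul_sum, Finset.sum_filter, Finset.sum_filter, Finset.sum_filter,
        Finset.sum_filter, Finset.sum_filter, ← Finset.sum_add_distrib, ← Finset.sum_add_distrib,
        ← Finset.sum_add_distrib]
      refine Finset.sum_congr rfl fun F _ => ?_
      by_cases h2 : Forest ends F <;> by_cases h3 : e ∈ F <;> by_cases h4 : f ∈ F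
      · have h5 : f ∈ F.erase e := Finset.mem_erase.mpr ⟨hef.symm, h4⟩
        simp only [h2, h3, h4, and_self, if_true, not_true, false_and, and_false, if_false,
          zero_add]
        rw [← Finset.mul_prod_erase F u h3, ← Finset.mul_prod_erase (F.erase e) u h5, huf, hue]
        ring
      · have h5 : f ∉ F.erase e := fun h6 => h4 (Finset.mem_of_mem_erase h6)
        simp only [h2, h3, h4, and_self, if_true, not_false_iff, not_true, false_and, and_false,
          if_false, add_zero, zero_add]
        rw [← Finset.mul_prod_erase F u h3, hue, Finset.erase_eq_of_notMem h5]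
      · simp only [h2, h3, h4, and_self, if_true, not_false_iff, not_true, false_and, and_false,
          if_false, add_zero, zero_add]
        rw [← Finset.mul_prod_erase F u h4, huf, Finset.erase_eq_of_notMem h3]
      · simp only [h2, h3, h4, and_self, if_true, not_false_iff, false_and, and_false,
          if_false, add_zero]
        rw [Finset.erase_eq_of_notMem h3, Finset.erase_eq_of_notMem h4]
      all_goals simp [h2]
    rw [e11, e1, e2, e0]
    nlinarith
  · obtain ⟨n, p, hp, h1⟩ := degree_law ends hloop w hw h
    refine ⟨n, p, hp, fun t => ?_⟩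
    rw [hF]
    exact h1 t

end Pool.Agent.Results.MP_d90615_co.StarRayleigh
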