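import Pool.Agent.Lib.MP_d90615_co.ThreeGap

/-!
# The three point inequality for the uniform spanning forest, and the exact form of the negative
correlation of two edges with a common end

Proof: `H(A) = ∑_F det (1 + J_F A)` (sum over the forests, `J_F` the 0-1 matrix of connectivity)
is real stable in the symmetric matrix `A`, hence satisfies Rayleigh inequalities at all real
symmetric `A`.  For `A` supported on three vertices they are a family of inequalities with four
real parameters; eliminating the parameters (a quadratic form argument) leaves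
`N * N_abc ^ 2 ≤ N_ab * N_bc * N_ca`.
-/

namespace Pool.Agent.Results.MP_d90615_co.ThreePoints

open Finset Pool.Agent.Lib.MP_d90615_co
open scoped Classical

/-- The spanning forests of the finite multigraph with edge set `E`, vertex set `V` and end map
`ends`: the sets of edges that contain no cycle. -/
noncomputable def forests {V E : Type*} [Fintype E] (ends : E → Sym2 V) : Finset (Finset E) :=
  univ.filter fun F => ¬ HasCycle ends F

/-- Probability of the event `p` for a uniformly random spanning forest. -/
noncomputable def prob {V E : Type*} [Fintype E] (ends : E → Sym2 V) (p : Finset E → Prop) : ℝ :=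
  (((forests ends).filter p).card : ℝ) / ((forests ends).card : ℝ)

lemma card_eq {V E : Type*} [Fintype E] (ends : E → Sym2 V)
    (hloop : ∀ e, ¬ (ends e).IsDiag) (p : Finset E → Prop) :
    (((forests ends).filter p).card : ℝ) =
      ∑ F : Finset E, (if Forest ends F ∧ p F then 1 else 0 : ℝ) := by
  rw [forests, Finset.filter_filter, Finset.card_filter]
  push_cast
  refine Finset.sum_congr rfl fun F _ => ?_
  simp only [forest_iff hloop F]

lemma card_pos {V E : Type*} [Fintype E] (ends : E → Sym2 V)
    (hloop : ∀ e, ¬ (ends e).IsDiag) : (0 : ℝ) < ((forests ends).card : ℝ) := by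
  have c0 : ((forests ends).card : ℝ) = ∑ F : Finset E, (if Forest ends F then 1 else 0 : ℝ) := by
    have := card_eq ends hloop (fun _ => True)
    simpa using this
  rw [c0]
  refine Finset.sum_pos' (fun F _ => by split_ifs <;> norm_num) ⟨∅, Finset.mem_univ _, ?_⟩
  have : Forest ends (∅ : Finset E) := by
    intro g hg
    simp at hg
  simp [this]

lemma prob_mul {V E : Type*} [Fintype E] (ends : E → Sym2 V)
    (hloop : ∀ e, ¬ (ends e).IsDiag) (p : Finset E → Prop) :
    prob ends p * ((forests ends).card : ℝ) =
      ∑ F : Finset E, (if Forest ends F ∧ p F then 1 else 0 : ℝ) := by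
  rw [prob, div_mul_cancel₀ _ (card_pos ends hloop).ne', card_eq ends hloop]

lemma c2_eq {V E : Type*} [Fintype E] (ends : E → Sym2 V)
    (hloop : ∀ e, ¬ (ends e).IsDiag) (x y : V) :
    c2 ends univ x y = prob ends (fun F => Conn ends F x y) * ((forests ends).card : ℝ) := by
  rw [prob_mul ends hloop, c2, Finset.powerset_univ, Finset.sum_filter]
  refine Finset.sum_congr rfl fun F _ => ?_
  by_cases h : Forest ends F <;> by_cases h' : Conn ends F x y <;> simp [h, h', ind]

lemma c3_eq {V E : Type*} [Fintype E] (ends : E → Sym2 V)
    (hloop : ∀ e, ¬ (ends e).IsDiag) (x y z : V) :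
    c3 ends univ x y z =
      prob ends (fun F => Conn ends F x y ∧ Conn ends F y z) * ((forests ends).card : ℝ) := by
  rw [prob_mul ends hloop, c3, Finset.powerset_univ, Finset.sum_filter]
  refine Finset.sum_congr rfl fun F _ => ?_
  by_cases h : Forest ends F <;> by_cases h' : Conn ends F x y <;>
    by_cases h'' : Conn ends F y z <;> simp [h, h', h'', ind]

lemma cN_eq {V E : Type*} [Fintype E] (ends : E → Sym2 V)
    (hloop : ∀ e, ¬ (ends e).IsDiag) :
    cN ends univ = ((forests ends).card : ℝ) := by
  have := card_eq ends hloop (fun _ => True)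
  simp only [and_true, Finset.filter_true] at this
  rw [this, cN, Finset.powerset_univ, Finset.sum_filter]

/-- (1) The three point inequality: `P(x~y~z)^2 ≤ P(x~y) P(y~z) P(x~z)`.
(2) Edges `e = ca` and `f = cb` with a common end are negatively correlated, with the gap
`(√(P(c~a) P(c~b)) - √(P(⊤) P(a~b)))^2`, where the four probabilities are those of the forests
that contain neither `e` nor `f`. -/
theorem result {V E : Type*} [Fintype V] [Fintype E] (ends : E → Sym2 V)
    (hloop : ∀ e, ¬ (ends e).IsDiag) :
    (∀ x y z : V, prob ends (fun F => Conn ends F x y ∧ Conn ends F y z) ^ 2 ≤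
      prob ends (fun F => Conn ends F x y) * prob ends (fun F => Conn ends F y z)
        * prob ends (fun F => Conn ends F x z)) ∧
    (∀ (e f : E) (a b c : V), e ≠ f → ends e = s(c, a) → ends f = s(c, b) →
      prob ends (fun F => e ∈ F ∧ f ∈ F)
        + (Real.sqrt (prob ends (fun F => e ∉ F ∧ f ∉ F ∧ Conn ends F c a)
            * prob ends (fun F => e ∉ F ∧ f ∉ F ∧ Conn ends F c b))
          - Real.sqrt (prob ends (fun F => e ∉ F ∧ f ∉ F)
            * prob ends (fun F => e ∉ F ∧ f ∉ F ∧ Conn ends F a b))) ^ 2 ≤
      prob ends (fun F => e ∈ F) * prob ends (fun F => f ∈ F)) := by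
  have hpos := card_pos ends hloop
  constructor
  · intro x y z
    have hsymm : ∀ u v : V, prob ends (fun F => Conn ends F u v) =
        prob ends (fun F => Conn ends F v u) := by
      intro u v
      have : (fun F => Conn ends F u v) = (fun F => Conn ends F v u) := by
        funext F
        exact propext ⟨Conn.symm, Conn.symm⟩
      rw [this]
    have hone : ∀ u : V, prob ends (fun F => Conn ends F u u) = 1 := by
      intro u
      rw [prob, Finset.filter_true_of_mem fun F _ => Conn.refl ends F u]
      exact div_self hpos.ne'
    by_cases hxy : x = y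
    · have h1 : (fun F => Conn ends F x y ∧ Conn ends F y z) = fun F => Conn ends F y z := by
        funext F
        rw [hxy]
        exact propext ⟨fun h => h.2, fun h => ⟨Conn.refl _ _ _, h⟩⟩
      rw [h1, hxy, hone]
      nlinarith
    by_cases hyz : y = z
    · have h1 : (fun F => Conn ends F x y ∧ Conn ends F y z) = fun F => Conn ends F x y := by
        funext F
        rw [hyz]
        exact propext ⟨fun h => h.1, fun h => ⟨h, Conn.refl _ _ _⟩⟩
      rw [h1, ← hyz, hone]
      nlinarith
    by_cases hzx : z = x
    · have h1 : (fun F => Conn ends F x y ∧ Conn ends F y z) = fun F => Conn ends F x y := by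
        funext F
        rw [hzx]
        exact propext ⟨fun h => h.1, fun h => ⟨h, h.symm⟩⟩
      rw [h1, hzx, hone, hsymm y x]
      nlinarith
    have h := three_point ends univ hxy hyz hzx
    rw [cN_eq ends hloop, c3_eq ends hloop, c2_eq ends hloop, c2_eq ends hloop,
      c2_eq ends hloop, hsymm z x] at h
    set Z : ℝ := ((forests ends).card : ℝ)
    have h2 : Z ^ 3 * (prob ends (fun F => Conn ends F x y ∧ Conn ends F y z) ^ 2) ≤
        Z ^ 3 * (prob ends (fun F => Conn ends F x y) * prob ends (fun F => Conn ends F y z)
        * prob ends (fun F => Conn ends F x z)) := by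
      nlinarith
    exact le_of_mul_le_mul_left h2 (pow_pos hpos 3)
  · intro e f a b c hef hca hcb
    set S : Finset E := (univ.erase e).erase f with hS
    have hfS : f ∉ S := Finset.notMem_erase _ _
    have hins : insert f S = univ.erase e := by
      rw [hS]
      exact Finset.insert_erase (by simp [hef.symm])
    have heS : e ∉ insert f S := by
      rw [hins]
      exact Finset.notMem_erase _ _
    have huniv : insert e (insert f S) = univ := by
      rw [hins]
      exact Finset.insert_erase (Finset.mem_univ _)
    have hmain := adjacent_gap ends hloop S heS hfS hca hcb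
    rw [huniv, Finset.powerset_univ] at hmain
    have c0 : (∑ F : Finset E, (if Forest ends F then 1 else 0 : ℝ)) =
        ((forests ends).card : ℝ) := by
      have := card_eq ends hloop (fun _ => True)
      simp only [and_true, Finset.filter_true] at this
      exact this.symm
    have g1 : (∑ F : Finset E, (if Forest ends F ∧ e ∈ F ∧ f ∈ F then 1 else 0 : ℝ)) =
        prob ends (fun F => e ∈ F ∧ f ∈ F) * ((forests ends).card : ℝ) := by
      rw [prob_mul ends hloop]
      exact Finset.sum_congr rfl fun F _ => by congr
    have g2 : (∑ F : Finset E, (if Forest ends F ∧ e ∉ F ∧ f ∉ F ∧ Conn ends F c a then 1 else 0 : ℝ)) =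
        prob ends (fun F => e ∉ F ∧ f ∉ F ∧ Conn ends F c a) * ((forests ends).card : ℝ) := by
      rw [prob_mul ends hloop]
      exact Finset.sum_congr rfl fun F _ => by congr
    have g3 : (∑ F : Finset E, (if Forest ends F ∧ e ∉ F ∧ f ∉ F ∧ Conn ends F c b then 1 else 0 : ℝ)) =
        prob ends (fun F => e ∉ F ∧ f ∉ F ∧ Conn ends F c b) * ((forests ends).card : ℝ) := by
      rw [prob_mul ends hloop]
      exact Finset.sum_congr rfl fun F _ => by congr
    have g4 : (∑ F : Finset E, (if Forest ends F ∧ e ∉ F ∧ f ∉ F then 1 else 0 : ℝ)) =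
        prob ends (fun F => e ∉ F ∧ f ∉ F) * ((forests ends).card : ℝ) := by
      rw [prob_mul ends hloop]
      exact Finset.sum_congr rfl fun F _ => by congr
    have g5 : (∑ F : Finset E, (if Forest ends F ∧ e ∉ F ∧ f ∉ F ∧ Conn ends F a b then 1 else 0 : ℝ)) =
        prob ends (fun F => e ∉ F ∧ f ∉ F ∧ Conn ends F a b) * ((forests ends).card : ℝ) := by
      rw [prob_mul ends hloop]
      exact Finset.sum_congr rfl fun F _ => by congr
    have g6 : (∑ F : Finset E, (if Forest ends F ∧ e ∈ F then 1 else 0 : ℝ)) =
        prob ends (fun F => e ∈ F) * ((forests ends).card : ℝ) := by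
      rw [prob_mul ends hloop]
      exact Finset.sum_congr rfl fun F _ => by congr
    have g7 : (∑ F : Finset E, (if Forest ends F ∧ f ∈ F then 1 else 0 : ℝ)) =
        prob ends (fun F => f ∈ F) * ((forests ends).card : ℝ) := by
      rw [prob_mul ends hloop]
      exact Finset.sum_congr rfl fun F _ => by congr
    rw [c0, g1, g2, g3, g4, g5, g6, g7] at hmain
    set Z : ℝ := ((forests ends).card : ℝ)
    have s1 : ∀ u v : ℝ, Real.sqrt (u * Z * (v * Z)) = Real.sqrt (u * v) * Z := by
      intro u v
      have : u * Z * (v * Z) = u * v * (Z * Z) := by ring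
      rw [this, Real.sqrt_mul' _ (mul_self_nonneg Z), Real.sqrt_mul_self hpos.le]
    rw [s1, s1] at hmain
    refine le_of_mul_le_mul_right ?_ (mul_pos hpos hpos)
    nlinarith

end Pool.Agent.Results.MP_d90615_co.ThreePoints
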