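import Mathlib
import Pool.Agent.Lib.MP_d90615_co.Cycle
import Pool.Agent.Lib.MP_d90615_co.TW.Pair
import Pool.Agent.Lib.MP_d90615_co.PW.Multi

/-!
# Negative correlation for two edges with twin ends

A random spanning forest `F` of a finite multigraph is chosen with probability proportional to the
product of the weights of its edges.  Let `e = ab` and `f = cd`.  If `a = c`, or if the stars of
`a` and `c` are proportional outside `{a, b, c, d}`, then `P(e, f ∈ F) ≤ P(e ∈ F) P(f ∈ F)`.
Moreover this holds for any two edges of a graph with classes of twins, unless the two edges join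
four different classes: for any two edges of a complete graph, of a complete bipartite or
tripartite graph and of any graph with at most three classes of twins, with product weights.

Proof.  With `J_F` the 0-1 matrix of the connectivity relation of `F` the sum
`∑_F w^F det (1 + J_F A)` does not vanish for `Im A > 0`.  (1) This gives Rayleigh inequalities at
`A = diag x + t x xᵀ` for all real `t`; (2) the sums `∑_F w^F ∏_T (1 + η x_T)` and
`∑_F w^F ∏_{T ≠ T_b} (1 + η x_T)` over the components `T` of `F` are real rooted and interlace.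
The four partition functions of `e` and `f` are combinations of the sums in (1), and (1) and (2)
together give the inequality.  If `c` and `d` are twins the Rayleigh difference of `e` and `cd` is
a sum of Rayleigh differences of `e` and edges at the vertex `cd` of the contracted graph.
-/

namespace Pool.Agent.Results.MP_d90615_co.TwinEnds

open Finset Pool.Agent.Lib.MP_d90615_co
open scoped Classical

/-- The spanning forests of the finite multigraph with edge set `E`, vertex set `V` and end map
`ends`: the sets of edges that contain no cycle. -/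
noncomputable def forests {V E : Type*} [Fintype E] (ends : E → Sym2 V) : Finset (Finset E) :=
  univ.filter fun F => ¬ HasCycle ends F

/-- Probability of the event `p` for a random spanning forest `F` chosen with probability
proportional to the product of the weights of its edges (`w = 1`: uniformly). -/
noncomputable def prob {V E : Type*} [Fintype E] (ends : E → Sym2 V) (w : E → ℝ)
    (p : Finset E → Prop) : ℝ :=
  (∑ F ∈ (forests ends).filter p, ∏ g ∈ F, w g) / ∑ F ∈ forests ends, ∏ g ∈ F, w g

/-- The total weight of the edges with ends `u` and `v`. -/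
noncomputable def weight {V E : Type*} [Fintype E] (ends : E → Sym2 V) (w : E → ℝ) (u v : V) : ℝ :=
  ∑ g ∈ univ.filter (fun g => ends g = s(u, v)), w g

/-- `a` and `c` have a common star: outside `b` and `d` the weights of their edges are
nonnegative multiples of one nonnegative function on the vertices. -/
def Twins {V E : Type*} [Fintype E] (ends : E → Sym2 V) (w : E → ℝ) (a b c d : V) : Prop :=
  ∃ (p q : ℝ) (x : V → ℝ), 0 ≤ p ∧ 0 ≤ q ∧ (∀ v, 0 ≤ x v) ∧
    ∀ v, v ≠ a → v ≠ b → v ≠ c → v ≠ d →
      weight ends w a v = p * x v ∧ weight ends w c v = q * x v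

/-- From the Rayleigh difference to the probabilities. -/
theorem prob_le {V E : Type*} [Fintype V] [Fintype E] (ends : E → Sym2 V)
    (hloop : ∀ g, ¬ (ends g).IsDiag) (w : E → ℝ) (hw : ∀ g, 0 ≤ w g) (e f : E) (hef : e ≠ f)
    (hR : w e ≠ 0 → w f ≠ 0 → ends e ≠ ends f →
      0 ≤ Pool.Agent.PW.Ray (Pool.Agent.PW.tot ends w) (ends e) (ends f)) :
    prob ends w (fun F => e ∈ F ∧ f ∈ F) ≤
      prob ends w (fun F => e ∈ F) * prob ends w (fun F => f ∈ F) := by
  have hZ : ∑ F ∈ forests ends, ∏ g ∈ F, w g = Pool.Agent.PW.Z (Pool.Agent.PW.tot ends w) := by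
    rw [← Pool.Agent.PW.FS_eq, Pool.Agent.PW.FS, forests]
    refine Finset.sum_congr ?_ fun _ _ => rfl
    ext F
    rw [mem_filter, mem_filter, forest_iff hloop]
  have hpos : 0 < ∑ F ∈ forests ends, ∏ g ∈ F, w g := by
    have h0 : (∅ : Finset E) ∈ forests ends := by
      rw [forests, mem_filter]
      refine ⟨mem_univ _, ?_⟩
      rintro ⟨n, v, c, _, _, h⟩
      exact absurd (h 0).1 (Finset.notMem_empty _)
    refine lt_of_lt_of_le one_pos ?_
    have h1 := Finset.single_le_sum (f := fun F : Finset E => ∏ g ∈ F, w g)
      (fun F _ => Finset.prod_nonneg fun g _ => hw g) h0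
    simpa using h1
  have hm : ∀ g : E, prob ends w (fun F => g ∈ F) =
      w g * Pool.Agent.PW.N (Pool.Agent.PW.tot ends w) (ends g) /
        ∑ F ∈ forests ends, ∏ g ∈ F, w g := by
    intro g
    rw [← Pool.Agent.PW.sum_mem, prob]
    congr 1
    refine Finset.sum_congr ?_ fun _ _ => rfl
    ext F
    simp only [forests, mem_filter, mem_univ, true_and, forest_iff hloop]
  have hmm : prob ends w (fun F => e ∈ F ∧ f ∈ F) =
      (if ends e = ends f then 0
      else w e * (w f * Pool.Agent.PW.N2 (Pool.Agent.PW.tot ends w) (ends e) (ends f))) /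
        ∑ F ∈ forests ends, ∏ g ∈ F, w g := by
    rw [← Pool.Agent.PW.sum_mem_mem ends w hef, prob]
    congr 1
    refine Finset.sum_congr ?_ fun _ _ => rfl
    ext F
    simp only [forests, mem_filter, mem_univ, true_and, forest_iff hloop]
  rw [hm, hm, hmm, div_mul_div_comm, div_le_div_iff₀ hpos (mul_pos hpos hpos), hZ]
  set W := Pool.Agent.PW.tot ends w with hW
  rw [hZ] at hpos
  have hWnn : ∀ g, 0 ≤ W g := fun g => Finset.sum_nonneg fun _ _ => hw _
  have hN : ∀ g, 0 ≤ Pool.Agent.PW.N W g := fun g =>
    Finset.sum_nonneg fun F _ => Finset.prod_nonneg fun _ _ => hWnn _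
  have hnn : 0 ≤ w e * Pool.Agent.PW.N W (ends e) * (w f * Pool.Agent.PW.N W (ends f)) := by
    have := hw e
    have := hw f
    have := hN (ends e)
    have := hN (ends f)
    positivity
  split_ifs with h
  · rw [zero_mul]
    positivity
  · by_cases he : w e = 0
    · simp [he]
    by_cases hf : w f = 0
    · simp [hf]
    have hR' := hR he hf h
    unfold Pool.Agent.PW.Ray at hR'
    have h3 : 0 ≤ w e * w f * Pool.Agent.PW.Z W := by
      have := hw e
      have := hw f
      positivity
    nlinarith [mul_nonneg h3 hR']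

/-- The Rayleigh difference for two edges with twin ends. -/
theorem ray_of_twins {V E : Type*} [Fintype V] [Fintype E] (ends : E → Sym2 V)
    (hloop : ∀ g, ¬ (ends g).IsDiag) (w : E → ℝ) (hw : ∀ g, 0 ≤ w g) {e f : E}
    (hne : ends e ≠ ends f) {a b c d : V} (he : ends e = s(a, b)) (hf : ends f = s(c, d))
    (h : a = c ∨ Twins ends w a b c d) :
    0 ≤ Pool.Agent.PW.Ray (Pool.Agent.PW.tot ends w) (ends e) (ends f) := by
  have hWnn : ∀ g, 0 ≤ Pool.Agent.PW.tot ends w g := fun g => Finset.sum_nonneg fun _ _ => hw _
  have hab : a ≠ b := by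
    rintro rfl
    apply hloop e
    rw [he]
    simp
  have hcd : c ≠ d := by
    rintro rfl
    apply hloop f
    rw [hf]
    simp
  rw [he, hf] at hne
  rw [he, hf]
  by_cases hac : a = c
  · subst hac
    refine ray_adj _ hWnn hab hcd ?_
    rintro rfl
    exact hne rfl
  by_cases had : a = d
  · subst had
    rw [Sym2.eq_swap (a := c)] at hne ⊢
    refine ray_adj _ hWnn hab (Ne.symm hcd) ?_
    rintro rfl
    exact hne rfl
  by_cases hbc : b = c
  · subst hbc
    rw [Sym2.eq_swap (a := a)] at hne ⊢
    refine ray_adj _ hWnn (Ne.symm hab) hcd ?_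
    rintro rfl
    exact hne rfl
  by_cases hbd : b = d
  · subst hbd
    rw [Sym2.eq_swap (a := a), Sym2.eq_swap (a := c)] at hne ⊢
    refine ray_adj _ hWnn (Ne.symm hab) (Ne.symm hcd) hac
  obtain ⟨p, q, x, hp, hq, hx, hv⟩ := h.resolve_left hac
  exact ray_twin _ hWnn hab hac had hbc hbd hcd hp hq x hx
    (fun v h1 h2 h3 h4 => by
      rw [← (hv v h1 h2 h3 h4).1]
      rfl)
    (fun v h1 h2 h3 h4 => by
      rw [← (hv v h1 h2 h3 h4).2]
      rfl)

/-- **Negative correlation for edges with a common end or with twin ends**, and for any two edges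
of a graph with classes of vertices as below. -/
theorem result {V E K : Type*} [Fintype V] [Fintype E] (ends : E → Sym2 V)
    (hloop : ∀ g, ¬ (ends g).IsDiag) (w : E → ℝ) (hw : ∀ g, 0 ≤ w g) :
    (∀ (e f : E), e ≠ f → ∀ (a b c d : V), ends e = s(a, b) → ends f = s(c, d) →
      (a = c ∨ Twins ends w a b c d) →
      prob ends w (fun F => e ∈ F ∧ f ∈ F) ≤
        prob ends w (fun F => e ∈ F) * prob ends w (fun F => f ∈ F)) ∧
    (∀ (k : V → K) (x : V → ℝ) (M : K → K → ℝ), (∀ v, 0 ≤ x v) → (∀ i j, 0 ≤ M i j) →
      (∀ i j i' j', M i j ≠ 0 → M i' j' ≠ 0 →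
        i = j ∨ i' = j' ∨ i = i' ∨ i = j' ∨ j = i' ∨ j = j') →
      (∀ u v, u ≠ v → weight ends w u v = x u * x v * M (k u) (k v)) →
      ∀ (e f : E), e ≠ f →
        prob ends w (fun F => e ∈ F ∧ f ∈ F) ≤
          prob ends w (fun F => e ∈ F) * prob ends w (fun F => f ∈ F)) := by
  constructor
  · intro e f hef a b c d he hf h
    exact prob_le ends hloop w hw e f hef fun _ _ hne =>
      ray_of_twins ends hloop w hw hne he hf h
  · intro k x M hx hM hint hW e f hef
    refine prob_le ends hloop w hw e f hef fun hwe hwf hne => ?_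
    -- the classes of the ends
    have hMne : ∀ (g : E) (u v : V), w g ≠ 0 → ends g = s(u, v) → u ≠ v ∧ M (k u) (k v) ≠ 0 := by
      intro g u v hg huv
      have h1 : u ≠ v := by
        rintro rfl
        apply hloop g
        rw [huv]
        simp
      refine ⟨h1, fun h2 => ?_⟩
      have h3 := hW u v h1
      rw [h2, mul_zero] at h3
      have h4 : w g ≤ weight ends w u v :=
        Finset.single_le_sum (f := w) (fun g _ => hw g) (by
          rw [mem_filter]
          exact ⟨mem_univ _, huv⟩)
      have h5 := hw g
      exact hg (le_antisymm (by linarith) h5)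
    obtain ⟨a, b, hab⟩ : ∃ a b, ends e = s(a, b) := by
      induction h : ends e using Sym2.ind with
      | _ u v => exact ⟨u, v, rfl⟩
    obtain ⟨c, d, hcd⟩ : ∃ c d, ends f = s(c, d) := by
      induction h : ends f using Sym2.ind with
      | _ u v => exact ⟨u, v, rfl⟩
    obtain ⟨hab', hM1⟩ := hMne e a b hwe hab
    obtain ⟨hcd', hM2⟩ := hMne f c d hwf hcd
    have hWnn : ∀ g, 0 ≤ Pool.Agent.PW.tot ends w g := fun g =>
      Finset.sum_nonneg fun _ _ => hw _
    by_cases hac : a = c
    · exact ray_of_twins ends hloop w hw hne hab hcd (Or.inl hac)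
    by_cases had : a = d
    · exact ray_of_twins ends hloop w hw hne hab (by rw [hcd, Sym2.eq_swap]) (Or.inl had)
    by_cases hbc : b = c
    · exact ray_of_twins ends hloop w hw hne (by rw [hab, Sym2.eq_swap]) hcd (Or.inl hbc)
    by_cases hbd : b = d
    · exact ray_of_twins ends hloop w hw hne (by rw [hab, Sym2.eq_swap])
        (by rw [hcd, Sym2.eq_swap]) (Or.inl hbd)
    rw [hab, hcd]
    exact ray_class k M hM hint _ (Pool.Agent.PW.tot ends w) x hWnn hx
      (fun u v huv => hW u v huv) rfl a b c d hab' hac had hbc hbd hcd' hM1 hM2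

end Pool.Agent.Results.MP_d90615_co.TwinEnds
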